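import Pool.Agent.H516.PCF.All

/-! Existence of a nonrepelling fixed point (helper264, for helper516) -/

namespace Pool.Agent.H264.PCF

open Polynomial
open Pool.Agent.H516.PCF

theorem sum_pos_val {F : Type} [Field F] {p : ℕ} {w : F → ℝ} (hw : NA p w) (s : Finset F) (x : F → F)
    (h0 : ∀ q ∈ s, x q ≠ 0) (h1 : ∀ q ∈ s, 0 < w (x q)) :
    ∑ q ∈ s, x q = 0 ∨ 0 < w (∑ q ∈ s, x q) := by
  classical
  induction s using Finset.induction_on with
  | empty => exact Or.inl Finset.sum_empty
  | insert a s ha ih =>
    rw [Finset.sum_insert ha]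
    have ha0 := h0 a (Finset.mem_insert_self a s)
    have ha1 := h1 a (Finset.mem_insert_self a s)
    by_cases h : x a + ∑ q ∈ s, x q = 0
    · exact Or.inl h
    right
    rcases ih (fun q hq => h0 q (Finset.mem_insert_of_mem hq))
      (fun q hq => h1 q (Finset.mem_insert_of_mem hq)) with h2 | h2
    · rw [h2, add_zero]
      exact ha1
    · by_cases h3 : ∑ q ∈ s, x q = 0
      · rw [h3, add_zero]
        exact ha1
      · exact (lt_min ha1 h2).trans_le (hw.add _ _ ha0 h3 h)

theorem nrep (hNAB : S_NAB) : S_NREP := by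
  intro F _ _ _ p w hp hw d P Q hN hb hab
  classical
  obtain ⟨hw1, hneg, hinv, -, hdiv, -, hadd, -⟩ := hNAB F p w hp hw
  have hd2 := hN.two_le
  set a := P.leadingCoeff with ha
  set b := Q.coeff (d - 1) with hbdef
  have hP0 : P ≠ 0 := by
    rintro rfl
    have := hN.degP
    rw [natDegree_zero] at this
    omega
  have ha0 : a ≠ 0 := leadingCoeff_ne_zero.2 hP0
  have hcd : P.coeff d = a := by rw [← hN.degP]; rfl
  set H : F[X] := P - X * Q with hH
  have hab' := hadd b (-a) hb (neg_ne_zero.2 ha0) (by rw [hneg a ha0]; exact hab)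
  have hba : a - b ≠ 0 := by
    intro h
    apply hab'.1
    linear_combination -h
  have hwab : w (a - b) = w b := by
    rw [← hneg (a - b) hba, ← hab'.2]
    congr 1
    ring
  have hcoef : H.coeff d = a - b := by
    have h1 : (X * Q).coeff d = b := by
      obtain ⟨e, rfl⟩ : ∃ e, d = e + 1 := ⟨d - 1, by omega⟩
      rw [coeff_X_mul]
      rfl
    rw [hH, coeff_sub, hcd, h1]
  have hle : H.natDegree ≤ d := by
    have hq := hN.degQ
    refine (natDegree_sub_le _ _).trans (max_le hN.degP.le ?_)
    refine natDegree_mul_le.trans ?_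
    rw [natDegree_X]
    omega
  have hdeg : H.natDegree = d := natDegree_eq_of_le_of_coeff_ne_zero hle (by rw [hcoef]; exact hba)
  have hlc : H.leadingCoeff = a - b := by
    rw [leadingCoeff, hdeg, hcoef]
  have hH0 : H ≠ 0 := by
    intro h
    rw [h, natDegree_zero] at hdeg
    omega
  -- facts at the roots of `H`
  have hroot : ∀ q, H.eval q = 0 → P.eval q = q * Q.eval q := by
    intro q hq
    rw [hH, eval_sub, eval_mul, eval_X, sub_eq_zero] at hq
    exact hq
  have hQ0 : ∀ q, H.eval q = 0 → Q.eval q ≠ 0 := by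
    intro q hq h0
    have h1 := hroot q hq
    rw [h0, mul_zero] at h1
    obtain ⟨u, v, huv⟩ := hN.cop
    have h2 := congrArg (eval q) huv
    rw [eval_add, eval_mul, eval_mul, h0, h1, mul_zero, mul_zero, add_zero, eval_one] at h2
    exact zero_ne_one h2
  have hwr : ∀ q, H.eval q = 0 → (wr P Q).eval q = Q.eval q * ((derivative H).eval q + Q.eval q) := by
    intro q hq
    have h1 := hroot q hq
    rw [wr, hH, derivative_sub, derivative_mul, derivative_X]
    simp only [eval_sub, eval_mul, eval_add, eval_one, eval_X]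
    rw [h1]
    ring
  by_cases hm : ∃ q, H.eval q = 0 ∧ (derivative H).eval q = 0
  · obtain ⟨q, hq, hq'⟩ := hm
    refine ⟨q, hroot q hq, hQ0 q hq, Or.inr ?_⟩
    have h1 : (wr P Q).eval q / Q.eval q ^ 2 = 1 := by
      rw [hwr q hq, hq', zero_add, ← sq]
      exact div_self (pow_ne_zero 2 (hQ0 q hq))
    rw [h1, hw1]
  · push Not at hm
    by_contra hcon
    push Not at hcon
    set s := H.roots.toFinset with hs
    have hmem : ∀ q, q ∈ s ↔ H.eval q = 0 := by
      intro q
      rw [hs, Multiset.mem_toFinset, mem_roots hH0]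
      rfl
    have hnd : H.roots.Nodup := by
      rw [Multiset.nodup_iff_count_le_one]
      intro q
      by_contra h
      rw [not_le, count_roots] at h
      have h1 := (one_lt_rootMultiplicity_iff_isRoot hH0).1 h
      exact hm q h1.1 h1.2
    have hspl := IsAlgClosed.splits H
    have hcard : Multiset.card H.roots = H.natDegree := (hspl.natDegree_eq_card_roots).symm
    have hsc : s.card = d := by
      rw [hs, Multiset.toFinset_card_of_nodup hnd, hcard, hdeg]
    have hprod : H = C (a - b) * Lagrange.nodal s id := by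
      have h1 := C_leadingCoeff_mul_prod_multiset_X_sub_C hcard
      rw [hlc] at h1
      conv_lhs => rw [← h1]
      rw [Lagrange.nodal, Finset.prod, hs, Multiset.toFinset_val, hnd.dedup]
      rfl
    have hder : ∀ q ∈ s, (derivative H).eval q = (a - b) * ∏ j ∈ s.erase q, (q - j) := by
      intro q hq
      have h1 := Lagrange.eval_nodal_derivative_eval_node_eq (v := (id : F → F)) hq
      rw [hprod, derivative_C_mul, eval_mul, eval_C]
      rw [id_eq] at h1
      rw [h1, Lagrange.eval_nodal]
      rfl
    have hQs : Q.degree < (s.card : WithBot ℕ) := by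
      rw [hsc]
      exact (natDegree_lt_iff_degree_lt hN.Q0).1 hN.degQ
    have hlag := Lagrange.coeff_eq_sum (s := s) (v := (id : F → F)) (Set.injOn_id _) hQs
    rw [hsc] at hlag
    have hsum : ∑ q ∈ s, Q.eval q / (derivative H).eval q = b / (a - b) := by
      rw [eq_div_iff hba, Finset.sum_mul]
      refine Eq.trans ?_ hlag.symm
      refine Finset.sum_congr rfl fun q hq => ?_
      rw [hder q hq, id_eq]
      have h1 : ∏ j ∈ s.erase q, (q - j) ≠ 0 := by
        have h2 := hm q ((hmem q).1 hq)
        rw [hder q hq] at h2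
        exact right_ne_zero_of_mul h2
      simp only [id_eq]
      field_simp
    have hx : ∀ q ∈ s, Q.eval q / (derivative H).eval q ≠ 0 ∧
        0 < w (Q.eval q / (derivative H).eval q) := by
      intro q hq
      have hq0 := (hmem q).1 hq
      have hQq := hQ0 q hq0
      have hdq := hm q hq0
      obtain ⟨h1, h2⟩ := hcon q (hroot q hq0) hQq
      have h3 : (wr P Q).eval q / Q.eval q ^ 2 = (derivative H).eval q / Q.eval q + 1 := by
        rw [hwr q hq0]
        field_simp
      rw [h3] at h1 h2
      set y := (derivative H).eval q / Q.eval q with hy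
      have hy0 : y ≠ 0 := div_ne_zero hdq hQq
      have h4 := hadd (y + 1) (-1) h1 (neg_ne_zero.2 one_ne_zero) (by
        rw [hneg 1 one_ne_zero, hw1]
        exact h2)
      rw [add_neg_cancel_right] at h4
      have h5 : Q.eval q / (derivative H).eval q = y⁻¹ := by
        rw [hy, inv_div]
      rw [h5, hinv y hy0, h4.2]
      exact ⟨inv_ne_zero hy0, by linarith⟩
    have hfin := sum_pos_val hw s (fun q => Q.eval q / (derivative H).eval q)
      (fun q hq => (hx q hq).1) (fun q hq => (hx q hq).2)
    rw [hsum] at hfin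
    rcases hfin with h | h
    · exact div_ne_zero hb hba h
    · rw [hdiv b (a - b) hb hba, hwab, sub_self] at h
      exact lt_irrefl _ h

end Pool.Agent.H264.PCF
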